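import Mathlib
import Pool.Agent.H41.Kc.Defs
import Pool.Agent.H41.Kc.Lower3

set_option autoImplicit false

/-!
Every set of `n` points in general position contains a `3`-convex subset with
`exp (Ω (sqrt (log n / log log n)))` points.
-/

namespace Pool.Agent.Results.MP_b11e79_co.EverySetLower

open Pool.Agent.H41.Kc

/-- For all large `n`, every set of `n` points in general position in the plane contains a
subset that is `j`-convex for all `j ≥ 3` and has at least
`exp (sqrt (log n / log log n) / 30)` points. -/
theorem result : ∃ n₀ : ℕ, ∀ n ≥ n₀, ∀ P : Set (ℝ × ℝ), P.ncard = n → GeneralPosition P →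
    ∃ Q ⊆ P, (∀ j ≥ 3, KConvexSet j Q) ∧
      Real.exp (Real.sqrt (Real.log n / Real.log (Real.log n)) / 30) ≤ (Q.ncard : ℝ) :=
  every_lower

end Pool.Agent.Results.MP_b11e79_co.EverySetLower
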