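import Mathlib
import Pool.Agent.H41.Kc.Defs
import Pool.Agent.H41.Ex.Lim

set_option autoImplicit false

/-!
The order of growth of `log f(k,j,n)` for all fixed `k > j ≥ 3`.
-/

namespace Pool.Agent.Results.MP_b11e79_co.ExactExponent

open Pool.Agent.H41.Kc Filter Topology

/-- `f(k,j,n)`: the largest `m` such that every `k`-convex set of `n` points contains a `j`-convex
subset of size `m`. -/
noncomputable def f (k j n : ℕ) : ℕ :=
  sSup {m : ℕ | ∀ P : Set (ℝ × ℝ), P.ncard = n → KConvexSet k P →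
    ∃ Q : Set (ℝ × ℝ), Q ⊆ P ∧ Q.ncard = m ∧ KConvexSet j Q}

/-- The minimum, over all `k`-convex sets `P` of `n` points, of the maximal size of a `j`-convex
subset of `P`. -/
noncomputable def g (k j n : ℕ) : ℕ :=
  sInf {M : ℕ | ∃ P : Set (ℝ × ℝ), P.ncard = n ∧ KConvexSet k P ∧
    M = sSup {m : ℕ | ∃ Q : Set (ℝ × ℝ), Q ⊆ P ∧ Q.ncard = m ∧ KConvexSet j Q}}

/-- The exponent `e(k,j)`, with `K = ⌊k/3⌋` and `q = ⌊j/3⌋`: it is `1` if `K = q`,
`1/2 + (q - 1)/(2 K)` if `K - q` is odd and `1/2 + (q - 1)/(2 (K - 1))` if `K - q > 0` is even. -/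
noncomputable def expo (k j : ℕ) : ℝ :=
  if k / 3 = j / 3 then 1
  else if (k / 3 - j / 3) % 2 = 1 then
    1 / 2 + (((j / 3 : ℕ) : ℝ) - 1) / (2 * ((k / 3 : ℕ) : ℝ))
  else 1 / 2 + (((j / 3 : ℕ) : ℝ) - 1) / (2 * (((k / 3 : ℕ) : ℝ) - 1))

lemma expo_eq {k j : ℕ} (hjk : j < k) : expo k j = Pool.Agent.H41.Ex.eexp (k / 3) (j / 3) := by
  unfold expo Pool.Agent.H41.Ex.eexp
  have h1 : j / 3 ≤ k / 3 := Nat.div_le_div_right hjk.le
  by_cases h : k / 3 = j / 3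
  · rw [if_pos h, if_pos (le_of_eq h)]
  · have h2 : ¬ k / 3 ≤ j / 3 := by omega
    rw [if_neg h, if_neg h2]

/-- For all `k > j ≥ 3` there is `C > 0` such that, for all large `n`, `f(k,j,n)` (and the
min-max version `g(k,j,n)`) is between `exp ((log n) ^ e(k,j) / (log log n) ^ C)` and
`exp (C (log n) ^ e(k,j) log log n)`; hence `log log f(k,j,n) / log log n → e(k,j)`. -/
theorem result (k j : ℕ) (hj : 3 ≤ j) (hjk : j < k) :
    (∃ C : ℝ, 0 < C ∧ ∃ n₀ : ℕ, ∀ n ≥ n₀,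
      (Real.exp (Real.log n ^ expo k j / Real.log (Real.log n) ^ C) ≤ f k j n ∧
        (f k j n : ℝ) ≤ Real.exp (C * Real.log n ^ expo k j * Real.log (Real.log n))) ∧
      (Real.exp (Real.log n ^ expo k j / Real.log (Real.log n) ^ C) ≤ g k j n ∧
        (g k j n : ℝ) ≤ Real.exp (C * Real.log n ^ expo k j * Real.log (Real.log n)))) ∧
    Tendsto (fun n : ℕ => Real.log (Real.log (f k j n)) / Real.log (Real.log n)) atTop
      (𝓝 (expo k j)) ∧
    Tendsto (fun n : ℕ => Real.log (Real.log (g k j n)) / Real.log (Real.log n)) atTop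
      (𝓝 (expo k j)) := by
  rw [expo_eq hjk]
  refine ⟨?_, ?_, ?_⟩
  · obtain ⟨C, hC, n₀, h⟩ := Pool.Agent.H41.Ex.Lim_bounds hj hjk
    exact ⟨C, hC, n₀, fun n hn => ⟨h n hn (f k j n) (Or.inl rfl), h n hn (g k j n) (Or.inr rfl)⟩⟩
  · exact Pool.Agent.H41.Ex.Lim_tendsto hj hjk (f k j) (fun n => Or.inl rfl)
  · exact Pool.Agent.H41.Ex.Lim_tendsto hj hjk (g k j) (fun n => Or.inr rfl)

end Pool.Agent.Results.MP_b11e79_co.ExactExponent
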