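import Mathlib
import Pool.Agent.H41.Kc.Defs
import Pool.Agent.H41.Ex.Grow

set_option autoImplicit false

/-!
The order of growth of `log f(k,j,n)` for growing `k`.
-/

namespace Pool.Agent.Results.MP_b11e79_co.GrowingK

open Pool.Agent.H41.Kc Filter Topology

/-- `f(k,j,n)`: the minimum, over all `k`-convex sets `P` of `n` points, of the maximal size of a
`j`-convex subset of `P`. -/
noncomputable def g (k j n : ℕ) : ℕ :=
  sInf {M : ℕ | ∃ P : Set (ℝ × ℝ), P.ncard = n ∧ KConvexSet k P ∧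
    M = sSup {m : ℕ | ∃ Q : Set (ℝ × ℝ), Q ⊆ P ∧ Q.ncard = m ∧ KConvexSet j Q}}

/-- If `k = κ n` tends to infinity, then for every fixed `j ≥ 3`,
`log log f(k,j,n) / log log n → 1/2`. -/
theorem result (j : ℕ) (κ : ℕ → ℕ) (hj : 3 ≤ j) (hκ : Tendsto κ atTop atTop) :
    Tendsto (fun n : ℕ => Real.log (Real.log (g (κ n) j n)) / Real.log (Real.log n)) atTop
      (𝓝 (1 / 2)) :=
  Pool.Agent.H41.Ex.Grow_tendsto hj κ hκ

end Pool.Agent.Results.MP_b11e79_co.GrowingK
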